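import Mathlib
import Pool.Agent.H23.VD2

set_option autoImplicit false
set_option maxSynthPendingDepth 3

namespace Pool.Agent.Results.MP_19f369_gt.NotRight

open Set Filter Topology Pool.Agent.H23.VD

/-- covering dimension zero: every finite open cover has a finite refinement by pairwise disjoint
open sets -/
def DimZero (X : Type) [TopologicalSpace X] : Prop :=
  ∀ (n : ℕ) (U : Fin n → Set X), (∀ i, IsOpen (U i)) → (⋃ i, U i) = univ →
    ∃ (m : ℕ) (W : Fin m → Set X), (∀ j, IsOpen (W j) ∧ ∃ i, W j ⊆ U i) ∧ (⋃ j, W j) = univ ∧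
      ∀ j j', j ≠ j' → Disjoint (W j) (W j')

lemma homeo {K : Set ℝ} {F : (ℝ → Bool) → ℝ → Bool} (h1 : ContinuousOn F (I K 0 1))
    (h2 : BijOn F (I K 0 1) (I K 0 1)) : ∃ e : I K 0 1 ≃ₜ I K 0 1, ∀ D, (e D).1 = F D.1 := by
  have : CompactSpace (I K 0 1) := isCompact_iff_compactSpace.1 (I_closed 0 1).isCompact
  exact ⟨Continuous.homeoOfEquivCompactToT2 (f := h2.equiv F) (h1.mapsToRestrict h2.mapsTo),
    fun _ => rfl⟩

lemma un2 {A : Type} [TopologicalSpace A] {f g : A → A} {S S' T T' : Set A} (hf : ContinuousOn f S)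
    (bf : BijOn f S T) (hg : ContinuousOn g S') (bg : BijOn g S' T') (cS : IsClosed S)
    (cS' : IsClosed S') (dS : Disjoint S S') (dT : Disjoint T T') :
    ∃ F, ContinuousOn F (S ∪ S') ∧ BijOn F (S ∪ S') (T ∪ T') ∧ EqOn F f S ∧ EqOn F g S' := by
  classical
  have h1 : EqOn (S.piecewise f g) f S := piecewise_eqOn S f g
  have h2 : EqOn (S.piecewise f g) g S' := fun z hz =>
    piecewise_eq_of_notMem _ _ _ (disjoint_right.1 dS hz)
  have b1 := bf.congr h1.symm
  have b2 := bg.congr h2.symm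
  refine ⟨S.piecewise f g, (hf.congr h1).union_of_isClosed (hg.congr h2) cS cS',
    b1.union b2 ((injOn_union dS).2 ⟨b1.injOn, b2.injOn, fun z hz z' hz' he => ?_⟩), h1, h2⟩
  exact disjoint_left.1 dT (b1.mapsTo hz) (he ▸ b2.mapsTo hz')

lemma swap2 {K : Set ℝ} (h : Pool.Agent.H23.VD.Inv K) {p q d : ℚ} (h0 : (0 : ℝ) ≤ p)
    (hd : (0 : ℝ) ≤ d) (h1 : (p : ℝ) + d ≤ q) (h2 : (q : ℝ) + d ≤ 1) :
    ∃ e : I K 0 1 ≃ₜ I K 0 1, (∀ D : I K 0 1, D.1 ∈ I K p (p + d) → (e D).1 ∈ I K q (q + d)) ∧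
      ∀ D : I K 0 1, D.1 ∉ I K p (p + d) → D.1 ∉ I K q (q + d) → e D = D := by
  have kp := h.rat p
  have kq := h.rat q
  have kp' := h.add _ kp d
  have kq' := h.add _ kq d
  obtain ⟨f, f1, f2⟩ := tr h (a := p) (b := p + d) (a' := q) (b' := q + d) (q - p)
    (by push_cast; ring) (by push_cast; ring)
  obtain ⟨g, g1, g2⟩ := tr h (a := q) (b := q + d) (a' := p) (b' := p + d) (p - q)
    (by push_cast; ring) (by push_cast; ring)
  obtain ⟨G, G1, G2, G3, -⟩ := un2 f1 f2 g1 g2 (I_closed _ _) (I_closed _ _) (I_disj kp' h1)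
    (I_disj kp' h1).symm
  rw [union_comm (I K q (q + d))] at G2
  have c1 : IsClosed (I K 0 1 \ (I K p (p + d) ∪ I K q (q + d))) := by
    rw [← Set.sdiff_inter_sdiff, I_diff h.zero kp kp' h0 (by linarith) (by linarith),
      I_diff h.zero kq kq' (by linarith) (by linarith) h2]
    exact ((I_closed _ _).union (I_closed _ _)).inter ((I_closed _ _).union (I_closed _ _))
  obtain ⟨F, F1, F2, F3, F4⟩ := un2 G1 G2 continuousOn_id (bijOn_id _)
    ((I_closed _ _).union (I_closed _ _)) c1 disjoint_sdiff_right disjoint_sdiff_right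
  have hs : I K p (p + d) ∪ I K q (q + d) ⊆ I K 0 1 :=
    union_subset (I_mono h.zero kp' h0 (by linarith)) (I_mono h.zero kq' (by linarith) h2)
  rw [union_sdiff_cancel hs] at F1 F2
  obtain ⟨e, he⟩ := homeo F1 F2
  refine ⟨e, fun D hD => ?_, fun D hD hD' => Subtype.ext ?_⟩
  · rw [he, F3 (Or.inl hD), G3 hD]
    exact f2.mapsTo hD
  · rw [he, F4 ⟨D.2, fun hh => hh.elim hD hD'⟩]
    rfl

lemma locate {K : Set ℝ} (h : Pool.Agent.H23.VD.Inv K) {d : ℚ} (hd : (0 : ℝ) ≤ d) {D : ℝ → Bool} :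
    ∀ n : ℕ, D ∈ I K 0 ((n * d : ℚ) : ℝ) →
      ∃ i < n, D ∈ I K ((i * d : ℚ) : ℝ) (((i * d : ℚ) : ℝ) + d) := by
  intro n
  induction n with
  | zero => intro hD; simp [I_self] at hD
  | succ n ih =>
    intro hD
    rw [I_split h.zero (h.rat (n * d)) (by push_cast; positivity)
      (by push_cast; nlinarith)] at hD
    rcases hD with hD | hD
    · obtain ⟨i, hi, h'⟩ := ih hD
      exact ⟨i, by omega, h'⟩
    · refine ⟨n, by omega, ?_⟩
      have : (((n + 1 : ℕ) * d : ℚ) : ℝ) = ((n * d : ℚ) : ℝ) + d := by push_cast; ring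
      rwa [this] at hD

lemma move {K : Set ℝ} (h : Pool.Agent.H23.VD.Inv K) (Y : Finset (I K 0 1)) :
    ∃ e : I K 0 1 ≃ₜ I K 0 1, ∀ y ∈ Y, (e y).1 (1 / 2) = true := by
  classical
  have hh : (1 / 2 : ℝ) ∈ K := by simpa using h.rat (1 / 2)
  induction Y using Finset.induction_on with
  | empty => exact ⟨Homeomorph.refl _, by simp⟩
  | insert y Y _ ih =>
    obtain ⟨e, he⟩ := ih
    cases hy : (e y).1 (1 / 2) with
    | true =>
      refine ⟨e, fun z hz => ?_⟩
      rcases Finset.mem_insert.1 hz with rfl | hz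
      · exact hy
      · exact he z hz
    | false =>
      obtain ⟨N, hN⟩ : ∃ N, N = Y.card + 1 := ⟨_, rfl⟩
      have hN0 : (0 : ℝ) < N := by rw [hN]; positivity
      obtain ⟨d, hd⟩ : ∃ d : ℚ, (d : ℝ) = 1 / (2 * N) := ⟨1 / (2 * N), by push_cast; ring⟩
      have hd0 : (0 : ℝ) < d := by rw [hd]; positivity
      have hNd : (N : ℝ) * d = 1 / 2 := by rw [hd]; field_simp
      obtain ⟨i, hi, hi'⟩ := locate h hd0.le (D := (e y).1) N (by
        rw [show ((N * d : ℚ) : ℝ) = 1 / 2 by push_cast; exact hNd]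
        exact ⟨(e y).2.1, (e y).2.2.1, (e y).2.2.2.1, hy⟩)
      obtain ⟨j, hj⟩ : ∃ j : Fin N, ∀ z ∈ Y,
          (e z).1 ∉ I K ((1 / 2 + j * d : ℚ) : ℝ) (((1 / 2 + j * d : ℚ) : ℝ) + d) := by
        by_contra hcon
        push Not at hcon
        choose f f1 f2 using hcon
        have hinj : Function.Injective f := by
          intro j j' e'
          by_contra hne
          have key : ∀ j j' : Fin N, j < j' → f j = f j' → False := by
            intro j j' hlt e'
            have h3 : (j : ℝ) + 1 ≤ j' := by exact_mod_cast hlt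
            refine disjoint_left.1 (I_disj (h.add _ (h.rat _) d) ?_) (f2 j) (e' ▸ f2 j')
            push_cast
            nlinarith
          rcases lt_or_gt_of_ne hne with h' | h'
          · exact key _ _ h' e'
          · exact key _ _ h' e'.symm
        have := Finset.card_le_card_of_injOn (s := Finset.univ) (t := Y) f (fun j _ => f1 j)
          hinj.injOn
        simp at this
        omega
      have hi1 : (i : ℝ) + 1 ≤ N := by exact_mod_cast hi
      have hj1 : (j : ℝ) + 1 ≤ N := by exact_mod_cast j.isLt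
      have hj0 : (0 : ℝ) ≤ (j : ℝ) * d := by positivity
      have hp : ((i * d : ℚ) : ℝ) + d ≤ 1 / 2 := by push_cast; nlinarith
      obtain ⟨s, s1, s2⟩ := swap2 h (p := i * d) (q := 1 / 2 + j * d) (d := d)
        (by push_cast; positivity) hd0.le (hp.trans (by push_cast; linarith))
        (by push_cast; nlinarith)
      refine ⟨e.trans s, fun z hz => ?_⟩
      rcases Finset.mem_insert.1 hz with rfl | hz
      · exact I.tt (s1 _ hi') hh (by push_cast; linarith)
      · rw [Homeomorph.trans_apply, s2 _ (fun h' => ?_) (hj z hz)]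
        · exact he z hz
        · have := I.ff h' (h.add _ (h.rat _) d) hp
          rw [he z hz] at this
          exact Bool.noConfusion this

theorem result : ∃ (X : Type) (_ : TopologicalSpace X), T2Space X ∧ CompactSpace X ∧ DimZero X ∧
    (∀ x y : X, ∃ h : X ≃ₜ X, h x = y) ∧
    ∃ U : Set (X → X), U ∈ nhds (id : X → X) ∧ ∀ F : Set (X → X), F.Finite →
      (∀ f ∈ F, Continuous f) → ∃ g : X → X, Continuous g ∧
        ¬ ∃ u ∈ U, Continuous u ∧ ∃ f ∈ F, g = u ∘ f := by
  classical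
  obtain ⟨K, h, hK⟩ := exists_K
  have : CompactSpace (I K 0 1) := isCompact_iff_compactSpace.1 (I_closed 0 1).isCompact
  let o' : I K 0 1 := ⟨o K, o_mem h one_pos⟩
  have hom' : ∀ D : I K 0 1, ∃ e : I K 0 1 ≃ₜ I K 0 1, e D = o' := fun D => by
    obtain ⟨F, h1, h2, h3⟩ := hom h D.2
    obtain ⟨e, he⟩ := homeo h1 h2
    exact ⟨e, Subtype.ext ((he D).trans h3)⟩
  have hsm : ∀ V : Set (I K 0 1), V ∈ 𝓝 o' → ∃ t : ℚ, (0 : ℝ) < t ∧ (t : ℝ) < 1 / 2 ∧
      ∀ D : I K 0 1, D.1 (t + t) = false → D ∈ V := by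
    intro V hV
    obtain ⟨v, v1, v2, v3⟩ := Real.exists_seq_rat_strictAnti_tendsto 0
    obtain ⟨n, hn⟩ := exists_subset_nhds_of_compactSpace
      (V := fun n => Subtype.val ⁻¹' I K 0 (v n)) (U := V)
      (Antitone.directed_ge fun n m hnm => preimage_mono
        (I_mono h.zero (h.rat _) le_rfl (Rat.cast_le.2 (v1.antitone hnm))))
      (fun n => (I_closed _ _).preimage continuous_subtype_val) (fun D hD => by
        rw [show D = o' from Subtype.ext ((uniq (fun n => h.rat _) tendsto_const_nhds v3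
          (fun _ => ⟨0, Or.inl rfl⟩) (fun n => o_mem h (v2 n)) D.1).1 fun n => mem_iInter.1 hD n)]
        exact hV)
    obtain ⟨t, t1, t2⟩ := exists_rat_btwn (lt_min (half_pos (v2 n)) one_half_pos)
    refine ⟨t, t1, t2.trans_le (min_le_right _ _), fun D hD => hn (I_mono h.zero
      (h.add _ (h.rat t) t) le_rfl (by linarith [t2.trans_le (min_le_left _ _)])
      ⟨D.2.1, D.2.2.1, D.2.2.2.1, hD⟩)⟩
  have onto : ∀ s : I K 0 1 → I K 0 1, Continuous s → Function.Injective s →
      Function.Surjective s := by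
    intro s hs hi D
    obtain ⟨e, he⟩ := hom' D
    by_contra hc
    obtain ⟨t, t1, -, t3⟩ := hsm (range (e ∘ s))ᶜ ((isCompact_range
      (e.continuous.comp hs)).isClosed.isOpen_compl.mem_nhds fun ⟨D', hD'⟩ =>
        hc ⟨D', e.injective (hD'.trans he.symm)⟩)
    obtain ⟨D', hD'⟩ := rigid h hK (e ∘ s) (e.continuous.comp hs) (e.injective.comp hi)
      (add_pos t1 t1)
    exact t3 _ (pr_lt h ((e ∘ s) D').2 hD') ⟨D', rfl⟩
  have hU : IsClopen {D : I K 0 1 | D.1 (1 / 2) = false} :=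
    (isClopen_discrete {false}).preimage
      ((continuous_apply (1 / 2 : ℝ)).comp continuous_subtype_val)
  refine ⟨I K 0 1, inferInstance, inferInstance, inferInstance, ?_, ?_,
    {u | (u o').1 (1 / 2) = false}, ?_, ?_⟩
  · intro n U hU1 hU2
    obtain ⟨m, W, h1, h2, h3⟩ := TopologicalSpace.IsOpenCover.exists_finite_nonempty_disjoint_clopen_cover
      (U := fun i => (⟨U i, hU1 i⟩ : TopologicalSpace.Opens (I K 0 1)))
      (TopologicalSpace.IsOpenCover.of_sets hU1 hU2)
    refine ⟨m, fun j => W j, fun j => ⟨(W j).isOpen, (h1 j).2⟩, eq_univ_of_univ_subset h2,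
      fun j j' hne => ?_⟩
    exact TopologicalSpace.Clopens.coe_disjoint.2 (h3 hne)
  · intro x y
    obtain ⟨e, he⟩ := hom' x
    obtain ⟨e', he'⟩ := hom' y
    exact ⟨e.trans e'.symm, by simp [he, ← he']⟩
  · refine (hU.isOpen.preimage (f := fun u : I K 0 1 → I K 0 1 => u o')
      (continuous_apply o')).mem_nhds ?_
    simp [o', o]
  · intro F hF hFc
    have : Nonempty (I K 0 1) := ⟨o'⟩
    obtain ⟨e, he⟩ := move h (hF.toFinset.image fun f => Function.invFun f o')
    refine ⟨e, e.continuous, ?_⟩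
    rintro ⟨u, hu, -, f, hf, hgu⟩
    have hi : Function.Injective (u ∘ f) := hgu ▸ e.injective
    have h1 := he _ (Finset.mem_image_of_mem _ (hF.mem_toFinset.2 hf))
    have h2 : f (Function.invFun f o') = o' :=
      Function.invFun_eq (onto f (hFc f hf) hi.of_comp o')
    rw [hgu, Function.comp_apply, h2] at h1
    exact Bool.noConfusion (h1.symm.trans hu)

end Pool.Agent.Results.MP_19f369_gt.NotRight
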